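import Pool.Agent.TMX.Stmts

/-! # Squad TMX, piece T12: ends of the ball of a wide local maximum -/

set_option autoImplicit false

namespace Pool.Agent.TMX.H39

open Finset
open Pool.Agent.Helper51_Max (I IsMax)
open Pool.Agent.TMX

theorem t12 : T12 := by
  intro hTan hGap N g M k w l hM hB y z z' r hky hyz hzz' hz'l hMy hMz' hl hr hopt
  have hlN := hB.lN
  have hg : ∀ v, v ≤ N → g v ≤ M v := fun v hv => Pool.Agent.Helper37_EM.g_le hM hv
  have hmid : ∀ i, y ≤ i → i ≤ z' → g i ≤ max (M y) (M z') := by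
    intro i h1 h2
    rcases le_total i w with h | h
    · exact ((hB.dn1 y i hky h1 h).trans (hg y (by omega))).trans (le_max_left _ _)
    · exact ((hB.up2 i z' h h2 hz'l).trans (hg z' (by omega))).trans (le_max_right _ _)
  obtain ⟨h1, h2, h3, h4, h5, ⟨i, hi1, hi2, hi3, hi4⟩, ⟨j, hj1, hj2, hj3, hj4⟩⟩ :=
    hGap hTan N g M hM y z z' r hyz hzz' (by omega) hMy hMz' hopt hmid
  have eI : I N z r = Icc (z - r) (z + r) := by
    unfold I
    rw [min_eq_left h2.le]
  have cI : ((I N z r).card : ℝ) = 2 * (r : ℝ) + 1 := by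
    rw [eI, Nat.card_Icc]
    have : z + r + 1 - (z - r) = 2 * r + 1 := by omega
    rw [this]; push_cast; ring
  constructor
  · by_contra hc
    have hc := not_le.1 hc
    have hiw : i < w := by
      by_contra h
      have h := not_lt.1 h
      have h6 := hB.up2 i y h hi2.le (by omega)
      have h7 := hg y (by omega)
      linarith
    have ga1 : g i ≤ g (z - r - 1) := hB.dn1 (z - r - 1) i (by omega) (by omega) hiw.le
    have ga2 : g i ≤ g (z - r - 2) := hB.dn1 (z - r - 2) i (by omega) (by omega) hiw.le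
    have eJ : I N (z - 1) (r + 1) = insert (z - r - 2) (insert (z - r - 1) (Icc (z - r) (z + r))) := by
      unfold I
      ext x
      simp only [mem_Icc, mem_insert, le_min_iff]
      omega
    have n1 : z - r - 1 ∉ Icc (z - r) (z + r) := by
      simp only [mem_Icc]; omega
    have n2 : z - r - 2 ∉ insert (z - r - 1) (Icc (z - r) (z + r)) := by
      simp only [mem_Icc, mem_insert]; omega
    have sJ : ∑ x ∈ I N (z - 1) (r + 1), g x = g (z - r - 2) + (g (z - r - 1) + ∑ x ∈ I N z r, g x) := by
      rw [eJ, sum_insert n2, sum_insert n1, eI]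
    have cJ : ((I N (z - 1) (r + 1)).card : ℝ) = 2 * (r : ℝ) + 3 := by
      rw [eJ, card_insert_of_notMem n2, card_insert_of_notMem n1, Nat.card_Icc]
      have : z + r + 1 - (z - r) = 2 * r + 1 := by omega
      rw [this]; push_cast; ring
    have hle := hM.le (z - 1) (by omega) (r + 1)
    rw [sJ, cJ, ← hopt, cI] at hle
    have hr0 : (0 : ℝ) ≤ r := Nat.cast_nonneg _
    have h8 : M (z - 1) * (2 * (r : ℝ) + 3) ≤ M z * (2 * (r : ℝ) + 3) :=
      mul_le_mul_of_nonneg_right hl (by linarith)
    have h9 : M z * (2 * (r : ℝ) + 3) = M z * (2 * (r : ℝ) + 1) + 2 * M z := by ring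
    linarith
  · by_contra hc
    have hc := not_le.1 hc
    have hjw : w < j := by
      by_contra h
      have h := not_lt.1 h
      have h6 := hB.dn1 z' j (by omega) hj2.le h
      have h7 := hg z' (by omega)
      linarith
    have ga1 : g j ≤ g (z + r + 1) := hB.up2 j (z + r + 1) hjw.le (by omega) (by omega)
    have ga2 : g j ≤ g (z + r + 2) := hB.up2 j (z + r + 2) hjw.le (by omega) (by omega)
    have eJ : I N (z + 1) (r + 1) = insert (z + r + 2) (insert (z + r + 1) (Icc (z - r) (z + r))) := by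
      unfold I
      ext x
      simp only [mem_Icc, mem_insert, le_min_iff]
      omega
    have n1 : z + r + 1 ∉ Icc (z - r) (z + r) := by
      simp only [mem_Icc]; omega
    have n2 : z + r + 2 ∉ insert (z + r + 1) (Icc (z - r) (z + r)) := by
      simp only [mem_Icc, mem_insert]; omega
    have sJ : ∑ x ∈ I N (z + 1) (r + 1), g x = g (z + r + 2) + (g (z + r + 1) + ∑ x ∈ I N z r, g x) := by
      rw [eJ, sum_insert n2, sum_insert n1, eI]
    have cJ : ((I N (z + 1) (r + 1)).card : ℝ) = 2 * (r : ℝ) + 3 := by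
      rw [eJ, card_insert_of_notMem n2, card_insert_of_notMem n1, Nat.card_Icc]
      have : z + r + 1 - (z - r) = 2 * r + 1 := by omega
      rw [this]; push_cast; ring
    have hle := hM.le (z + 1) (by omega) (r + 1)
    rw [sJ, cJ, ← hopt, cI] at hle
    have hr0 : (0 : ℝ) ≤ r := Nat.cast_nonneg _
    have h8 : M (z + 1) * (2 * (r : ℝ) + 3) ≤ M z * (2 * (r : ℝ) + 3) :=
      mul_le_mul_of_nonneg_right hr (by linarith)
    have h9 : M z * (2 * (r : ℝ) + 3) = M z * (2 * (r : ℝ) + 1) + 2 * M z := by ring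
    linarith

end Pool.Agent.TMX.H39
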